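import Pool.Agent.H.MP_e84969_co.M

open Filter Topology

namespace Pool.Agent.Results.MP_e84969_co.Asym

/-- M is a matroid with ground set all of Fin n whose independent sets are exactly the sets of
linearly independent columns of some matrix over F with columns indexed by Fin n -/
def Rep (F : Type) [Field F] {n : ℕ} (M : Matroid (Fin n)) : Prop :=
  M.E = Set.univ ∧ ∃ (m : ℕ) (A : Matrix (Fin m) (Fin n) F),
    ∀ I : Set (Fin n), M.Indep I ↔ LinearIndepOn F (fun (j : Fin n) (i : Fin m) => A i j) I

/-- isomorphism of matroids on Fin n -/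
def Iso {n : ℕ} (M N : Matroid (Fin n)) : Prop :=
  ∃ e : Fin n ≃ Fin n, ∀ I : Set (Fin n), M.Indep I ↔ N.Indep (e '' I)

/-- number of isomorphism classes of F-representable matroids on n elements -/
noncomputable def a (F : Type) [Field F] (n : ℕ) : ℕ :=
  Set.ncard {C : Set (Matroid (Fin n)) | ∃ M, Rep F M ∧ C = {N | Rep F N ∧ Iso M N}}

/-- Gaussian binomial coefficient: number of j-dimensional subspaces of F^n -/
noncomputable def gauss (F : Type) [Field F] (n j : ℕ) : ℕ :=
  Set.ncard {W : Submodule F (Fin n → F) | Module.finrank F W = j}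

noncomputable def Fq (F : Type) [Field F] (q k n : ℕ) : ℝ :=
  (1 / ((n.factorial : ℝ) * k * ((q : ℝ) - 1) ^ (n - 1))) *
    ∑ j ∈ Finset.range (n + 1), (gauss F n j : ℝ)

open Pool.Agent.H.MP_e84969_co

variable {F : Type} [Field F] {n : ℕ}

lemma Iso.refl (M : Matroid (Fin n)) : Iso M M := ⟨Equiv.refl _, fun I => by simp⟩

lemma Iso.symm {M N : Matroid (Fin n)} (h : Iso M N) : Iso N M := by
  obtain ⟨e, h⟩ := h
  exact ⟨e.symm, fun I => by rw [h, Equiv.image_symm_image]⟩

lemma Iso.trans {M N P : Matroid (Fin n)} (h : Iso M N) (h' : Iso N P) : Iso M P := by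
  obtain ⟨e, h⟩ := h
  obtain ⟨f, h'⟩ := h'
  exact ⟨e.trans f, fun I => by rw [h, h', Set.image_image]; rfl⟩

lemma ind_ker {V : Type} [AddCommGroup V] [Module F V] (v : Fin n → V) (I : Set (Fin n)) :
    LinearIndepOn F v I ↔ Ind (LinearMap.ker (Fintype.linearCombination F v)) I := by
  classical
  rw [linearIndepOn_iff]
  constructor
  · intro h x hx h0
    have := h ((Finsupp.linearEquivFunOnFinite F F (Fin n)).symm x) (by
      rw [Finsupp.mem_supported']; exact h0) (by
      rw [Finsupp.linearCombination_eq_fintype_linearCombination_apply]; exact hx)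
    exact congrArg Finsupp.equivFunOnFinite this
  · intro h l hl h0
    rw [Finsupp.mem_supported'] at hl
    have := h l (by
      rw [LinearMap.mem_ker, ← Finsupp.linearCombination_eq_fintype_linearCombination_apply]
      simpa using h0) hl
    ext i; exact congrFun this i

lemma exists_mat (K : Submodule F (Fin n → F)) :
    ∃ M : Matroid (Fin n), Rep F M ∧ ∀ I, M.Indep I ↔ Ind K I := by
  classical
  obtain ⟨m, A, hA⟩ : ∃ (m : ℕ) (A : Matrix (Fin m) (Fin n) F),
      LinearMap.ker (Fintype.linearCombination F (fun (j : Fin n) (i : Fin m) => A i j)) = K := by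
    let b := Module.finBasis F ((Fin n → F) ⧸ K)
    let f : (Fin n → F) →ₗ[F] (Fin _ → F) := b.equivFun.toLinearMap ∘ₗ K.mkQ
    refine ⟨_, fun i j => f (Pi.single j 1) i, ?_⟩
    have : Fintype.linearCombination F (fun j i => f (Pi.single j 1) i) = f := by
      refine LinearMap.pi_ext' (fun j => ?_)
      ext i
      simp
    rw [this]
    simp [f, LinearMap.ker_comp]
  set v : Fin n → Fin m → F := fun j i => A i j with hv
  refine ⟨(IndepMatroid.ofFinite (E := Set.univ) Set.finite_univ (fun I => LinearIndepOn F v I)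
    (linearIndepOn_empty F v) (fun I J hJ hIJ => hJ.mono hIJ) ?_
    (fun _ _ => Set.subset_univ _)).matroid, ⟨rfl, m, A, fun I => Iff.rfl⟩, fun I => ?_⟩
  · intro I J hI hJ hlt
    by_contra hh
    push Not at hh
    have h1 : Submodule.span F (v '' J) ≤ Submodule.span F (v '' I) := by
      rw [Submodule.span_le]
      rintro _ ⟨e, he, rfl⟩
      by_cases heI : e ∈ I
      · exact Submodule.subset_span ⟨e, heI, rfl⟩
      · by_contra hn
        exact hh e he heI ((linearIndepOn_insert heI).2 ⟨hI, hn⟩)
    have h2 := Submodule.finrank_mono h1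
    have h3 : ∀ S : Set (Fin n), LinearIndepOn F v S →
        Module.finrank F (Submodule.span F (v '' S)) = S.ncard := by
      intro S hS
      rw [Set.image_eq_range, finrank_span_eq_card hS, ← Nat.card_eq_fintype_card,
        Nat.card_coe_set_eq]
    rw [h3 I hI, h3 J hJ] at h2
    omega
  · rw [← hA, ← ind_ker]; rfl

theorem result (F : Type) [Field F] [Fintype F] (p k : ℕ) (hp : p.Prime)
    (hF : Fintype.card F = p ^ k) (h3 : 3 < p ^ k) :
    Tendsto (fun n => (a F n : ℝ) / Fq F (p ^ k) k n) atTop (𝓝 1) := by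
  have h := main (F := F) (by omega) (a F) (fun n => by
    choose mat hm1 hm2 using exists_mat (F := F) (n := n)
    refine ⟨{C : Set (Matroid (Fin n)) | ∃ M, Rep F M ∧ C = {N | Rep F N ∧ Iso M N}},
      fun K => ⟨{N | Rep F N ∧ Iso (mat K) N}, mat K, hm1 K, rfl⟩, ?_, ?_, ?_, ?_⟩
    · rintro ⟨_, M, ⟨hE, m, A, hA⟩, rfl⟩
      refine ⟨LinearMap.ker (Fintype.linearCombination F (fun (j : Fin n) (i : Fin m) => A i j)),
        Subtype.ext ?_⟩
      have : Iso M (mat (LinearMap.ker
          (Fintype.linearCombination F (fun (j : Fin n) (i : Fin m) => A i j)))) :=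
        ⟨Equiv.refl _, fun I => by simp [hm2, hA, ind_ker]⟩
      ext N
      exact and_congr_right (fun _ => ⟨fun h => this.trans h, fun h => this.symm.trans h⟩)
    · intro g K
      refine Subtype.ext ?_
      have : Iso (mat K) (mat (g • K)) := ⟨g.p, fun I => by rw [hm2, hm2, ind_smul]⟩
      ext N
      exact and_congr_right (fun _ => ⟨fun h => this.trans h, fun h => this.symm.trans h⟩)
    · intro K K' h
      have h1 : mat K' ∈ {N | Rep F N ∧ Iso (mat K) N} := by
        rw [show {N | Rep F N ∧ Iso (mat K) N} = {N | Rep F N ∧ Iso (mat K') N} from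
          congrArg Subtype.val h]
        exact ⟨hm1 K', Iso.refl _⟩
      obtain ⟨-, e, he⟩ := h1
      exact ⟨e, fun S => by rw [← hm2, ← hm2, he]⟩
    · rw [a, Nat.card_coe_set_eq])
  refine h.congr' ?_
  filter_upwards [eventually_ge_atTop 1] with n hn
  have e1 : ∑ j ∈ Finset.range (n + 1), (gauss F n j : ℝ) = NN F (Fin n) := by
    apply le_antisymm
    · refine le_trans (le_of_eq ?_) (cnt_fib (p := fun _ : Submodule F (Fin n → F) => True)
        (Finset.range (n + 1)) (fun W => Module.finrank F W))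
      simp [cnt, gauss]
    · refine cnt_sum (Finset.range (n + 1))
        (fun j (W : Submodule F (Fin n → F)) => Module.finrank F W = j) (fun W _ => ⟨_, ?_, rfl⟩)
      have := Submodule.finrank_le W
      simp at this ⊢; omega
  obtain ⟨m, rfl⟩ : ∃ m, n = m + 1 := ⟨n - 1, by omega⟩
  have hq : (3 : ℝ) < ((p ^ k : ℕ) : ℝ) := by exact_mod_cast h3
  have hq1 : ((p ^ k : ℕ) : ℝ) - 1 ≠ 0 := by linarith
  rw [Fq, e1, card_G, card_aut hp hF, hF, Fintype.card_fin, Nat.add_sub_cancel, Nat.cast_mul,
    Nat.cast_mul, Nat.cast_pow, Nat.cast_sub (by omega), Nat.cast_one, one_div, inv_mul_eq_div,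
    div_div_eq_mul_div, pow_succ]
  congr 2
  field_simp

end Pool.Agent.Results.MP_e84969_co.Asym
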